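import Pool.Agent.H39R2.FujTan

/-!
# Fujita's very ampleness conjecture for weighted hypersurfaces

Let `X = V(f)` be a hypersurface of degree `d` and dimension `n` in the weighted projective space
`P(a_0, ..., a_{n+1})`, such that `O(1)` is invertible on `X` (`hgcd`: `X` does not meet the locus
where the torus action has nontrivial stabilisers). Then `K_X = O(d - ∑ a_i)` and for `k ≥ 1` the
bundle `K_X ⊗ O(k)^(n+2) = O(e)`, `e = d - ∑ a_i + k (n+2)`, is very ample: its sections given by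
the forms of weighted degree `e` have no base point, separate points and separate tangent vectors.
-/

namespace Pool.Agent.Results.MP_e09b14_ag.WeightedHypersurfaces

open MvPolynomial

theorem result (n : ℕ) (a : Fin (n + 2) → ℕ) (ha : ∀ i, 0 < a i) (d : ℕ) (hd : 0 < d)
    (f : MvPolynomial (Fin (n + 2)) ℂ) (hf : IsWeightedHomogeneous a f d)
    (hgcd : ∀ v : Fin (n + 2) → ℂ, v ≠ 0 → eval v f = 0 →
      ∀ g : ℕ, (∀ i, v i ≠ 0 → g ∣ a i) → g = 1)
    (k e : ℕ) (hk : 1 ≤ k) (he : e + ∑ i, a i = d + k * (n + 2)) :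
    -- no base points
    (∀ v : Fin (n + 2) → ℂ, v ≠ 0 → eval v f = 0 →
      ∃ s : MvPolynomial (Fin (n + 2)) ℂ, IsWeightedHomogeneous a s e ∧ eval v s ≠ 0) ∧
    -- points are separated
    (∀ v w : Fin (n + 2) → ℂ, v ≠ 0 → w ≠ 0 → eval v f = 0 → eval w f = 0 →
      (¬ ∃ t : ℂ, t ≠ 0 ∧ ∀ i, w i = t ^ a i * v i) →
      ∃ s : MvPolynomial (Fin (n + 2)) ℂ, IsWeightedHomogeneous a s e ∧
        eval v s = 0 ∧ eval w s ≠ 0) ∧
    -- tangent vectors are separated
    (∀ v u : Fin (n + 2) → ℂ, v ≠ 0 → eval v f = 0 → ∑ i, eval v (pderiv i f) * u i = 0 →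
      (¬ ∃ τ : ℂ, ∀ i, u i = τ * (a i * v i)) →
      ∃ s : MvPolynomial (Fin (n + 2)) ℂ, IsWeightedHomogeneous a s e ∧
        eval v s = 0 ∧ ∑ i, eval v (pderiv i s) * u i ≠ 0) := by
  have hE : d ≤ e + ∑ l, (a l - 1) := by
    have h1 : ∑ l, a l = ∑ l, (a l - 1) + (n + 2) := by
      have h2 : ∀ l : Fin (n + 2), a l = (a l - 1) + 1 := fun l => by have := ha l; omega
      calc ∑ l, a l = ∑ l, ((a l - 1) + 1) := Finset.sum_congr rfl (fun l _ => h2 l)
        _ = ∑ l, (a l - 1) + (n + 2) := by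
            rw [Finset.sum_add_distrib]; simp
    have h3 : 1 * (n + 2) ≤ k * (n + 2) := Nat.mul_le_mul_right _ hk
    omega
  have S : Pool.Agent.H39R2.Fuj.Setup a d e f := ⟨ha, hd, by omega, hf, hgcd, hE⟩
  refine ⟨fun v hv hfv => S.bpf v hv hfv, ?_, ?_⟩
  · intro v w hv hw hfv hfw hne
    by_contra hcon
    push Not at hcon
    exact hne (S.pts v w hv hw hfv hfw hcon)
  · intro v u hv hfv hfu hne
    by_contra hcon
    push Not at hcon
    exact hne (S.tan v u hv hfv hfu hcon)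

end Pool.Agent.Results.MP_e09b14_ag.WeightedHypersurfaces
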